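import Mathlib
import Pool.Agent.Y723.SJ.Def
import Pool.Agent.Y723.SJ.Cmp
import Pool.Agent.Y723.JG.Main
import Pool.Agent.Y723.JG.Tail
import Pool.Agent.TH344.SG.Cor

/-!
# The tails of the distribution of the Tate-Shafarevich groups of Jacobians

Let `g ≥ 1`. All the curves `y² = (x - a_0) (x - a_1) ... (x - a_{2 g})` with distinct integers `a_i`,
ordered by `max |a_i|`. Every hyperelliptic curve over `ℚ` of genus `g` all of whose `2 g + 2`
Weierstrass points are rational is isomorphic over `ℚ` to such a curve. There is one set of density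
zero such that over all the other curves of the family, for all `m`, all the moments of
`#(J(ℚ) / 2 ^ m J(ℚ)) * #Ш(J)[2 ^ m]` are bounded, `J` the Jacobian. So the upper density of the
curves for which the sum of the 2-rank of `J(ℚ)` and the corank of the 2-primary part of `Ш(J)` is at
least `r` decays faster than any exponential `A ^ (-r)`.

The group of the points of `J` over an algebraically closed field, the absolute Galois group, the
cocycles and `Ш(J)` are defined in `Pool.Agent.Y723.SJ.Def`.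
-/

namespace Pool.Agent.Results.MP_a43263_nt.JacobianTails

open Finset Filter Topology Pool.Agent.Y723.SJ Pool.Agent.TH344.SG

/-- the tuples of distinct integers of absolute value at most `X` -/
def Fam (g X : ℕ) : Set (Fin (2 * g + 1) → ℤ) := {a | Function.Injective a ∧ ∀ i, |a i| ≤ X}

/-- the number of the elements of `Ш(J)` killed by `n`, `J` the Jacobian of `y² = ∏ (x - a i)` -/
noncomputable def sha {g : ℕ} (n : ℕ) (a : Fin (2 * g + 1) → ℤ) : ℕ := Nat.card (ShaTorsion a n)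

/-- the number of the elements of `J(ℚ) / n J(ℚ)` -/
noncomputable def quo {g : ℕ} (n : ℕ) (a : Fin (2 * g + 1) → ℤ) : ℕ := Nat.card (QuotQ a n)

/-- The corank of the 2-primary part of `Ш(J)`: the largest `t` such that `(ℤ / 2 ^ n) ^ t` embeds
in `Ш(J)` for all `n`. (The 2-primary part is the direct sum of `t` copies of `ℚ_2 / ℤ_2` and a
finite group; it is finite if and only if `t = 0`.) -/
noncomputable def corank {g : ℕ} (a : Fin (2 * g + 1) → ℤ) : ℕ := corank2 (Sha a)

/-- the proportion of the tuples of `S` among the tuples of `Fam g X` -/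
noncomputable def proportion {g : ℕ} (S : Set (Fin (2 * g + 1) → ℤ)) (X : ℕ) : ℝ :=
  ((Fam g X ∩ S).ncard : ℝ) / (Fam g X).ncard

/-- the upper density of a set of tuples -/
noncomputable def upperDensity {g : ℕ} (S : Set (Fin (2 * g + 1) → ℤ)) : ℝ :=
  limsup (proportion S) atTop

lemma Fam_eq (g X : ℕ) : Fam g X = (Pool.Agent.Y723.JG.Fm (2 * g + 1) X : Set (Fin (2 * g + 1) → ℤ)) := by
  classical
  ext a
  unfold Fam Pool.Agent.Y723.JG.Fm
  rw [Set.mem_ofPred_eq, mem_coe, mem_filter, Pool.Agent.TH344.JG.BadAux.mem_box, and_comm]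
  simp only [mem_Icc, abs_le]

lemma Fam_ncard (g X : ℕ) : (Fam g X).ncard = (Pool.Agent.Y723.JG.Fm (2 * g + 1) X).card := by
  rw [Fam_eq, Set.ncard_coe_finset]

lemma upperDensity_eq {g : ℕ} (S : Set (Fin (2 * g + 1) → ℤ)) :
    upperDensity S = Pool.Agent.Y723.JG.ud (Pool.Agent.Y723.JG.Fm (2 * g + 1)) S := by
  unfold upperDensity Pool.Agent.Y723.JG.ud proportion Pool.Agent.Y723.JG.ratio
  simp only [Fam_eq, Set.ncard_coe_finset]

/-- one curve -/
lemma curve {g : ℕ} {a : Fin (2 * g + 1) → ℤ} (ha : Function.Injective a) (m : ℕ) :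
    Finite (ShaTorsion a (2 ^ m)) ∧ Finite (QuotQ a (2 ^ m)) ∧
      quo (2 ^ m) a * sha (2 ^ m) a ≤ (Pool.Agent.TH344.JG.SelJ a).ncard ^ m ∧
      quo 2 a * 2 ^ corank a ≤ (Pool.Agent.TH344.JG.SelJ a).ncard := by
  have hfin := Pool.Agent.Y723.JG.selJ_fin ⟨g, rfl⟩ ha
  obtain ⟨h1, h2, h3⟩ := sha_sel_pow ha hfin m
  exact ⟨h1, h2, h3, cor_le ha hfin⟩

lemma Fam_tendsto (g : ℕ) (hg : 1 ≤ g) : Tendsto (fun X : ℕ => (Fam g X).ncard) atTop atTop := by
  simp only [Fam_ncard]
  obtain ⟨X0, h⟩ := Pool.Agent.Y723.JG.Fm_card (2 * g + 1) (by omega)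
  refine tendsto_atTop_mono' atTop ?_ tendsto_id
  filter_upwards [eventually_ge_atTop X0, eventually_ge_atTop 1] with X h1 h2
  have h3 : (X : ℝ) ^ (2 * g + 1) ≤ (Pool.Agent.Y723.JG.Fm (2 * g + 1) X).card := h X h1
  have h4 : (X : ℝ) ≤ (X : ℝ) ^ (2 * g + 1) := by
    have h5 : (1 : ℝ) ≤ X := by exact_mod_cast h2
    calc (X : ℝ) = (X : ℝ) ^ 1 := (pow_one _).symm
      _ ≤ _ := pow_le_pow_right₀ h5 (by omega)
  have h6 : (X : ℝ) ≤ ((Pool.Agent.Y723.JG.Fm (2 * g + 1) X).card : ℝ) := h4.trans h3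
  exact_mod_cast h6

/-- **Theorem.** Let `g ≥ 1`. The set `Fam g X` is finite, its number of elements tends to infinity
with `X`, and for the Jacobian `J` of `y² = ∏ (x - a i)` with `a` in `Fam g X` the groups
`Ш(J)[2 ^ m]` and `J(ℚ) / 2 ^ m J(ℚ)` are finite. There is a set `Z` of tuples of density zero such
that for all `m` and `k` the sum of the `k`-th powers of `#(J(ℚ) / 2 ^ m J(ℚ)) * #Ш(J)[2 ^ m]` over
the tuples of `Fam g X` outside of `Z` is at most `C_{m,k}` times the number of the elements of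
`Fam g X`. For every real number `A`, the upper density of the tuples with
`#(J(ℚ) / 2 J(ℚ)) * 2 ^ corank ≥ 2 ^ r` times `A ^ r` tends to zero for `r → ∞`, and so does for every
`m` the upper density of the tuples with `#(J(ℚ) / 2 ^ m J(ℚ)) * #Ш(J)[2 ^ m] ≥ 2 ^ r` times
`A ^ r`. -/
theorem result (g : ℕ) (hg : 1 ≤ g) :
    (∀ X : ℕ, (Fam g X).Finite ∧ ∀ a ∈ Fam g X, ∀ m : ℕ,
      Finite (ShaTorsion a (2 ^ m)) ∧ Finite (QuotQ a (2 ^ m))) ∧
    Tendsto (fun X : ℕ => (Fam g X).ncard) atTop atTop ∧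
    (∃ Z : Set (Fin (2 * g + 1) → ℤ), Tendsto (proportion Z) atTop (𝓝 0) ∧
      ∀ m k : ℕ, ∃ C : ℝ, ∀ X : ℕ,
        ∑ᶠ a ∈ Fam g X \ Z, ((quo (2 ^ m) a * sha (2 ^ m) a : ℕ) : ℝ) ^ k ≤
          C * (Fam g X).ncard) ∧
    (∀ A : ℝ, Tendsto (fun r : ℕ => A ^ r *
      upperDensity {a : Fin (2 * g + 1) → ℤ | 2 ^ r ≤ quo 2 a * 2 ^ corank a}) atTop (𝓝 0)) ∧
    ∀ (m : ℕ) (A : ℝ), Tendsto (fun r : ℕ => A ^ r *
      upperDensity {a : Fin (2 * g + 1) → ℤ | 2 ^ r ≤ quo (2 ^ m) a * sha (2 ^ m) a}) atTop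
        (𝓝 0) := by
  classical
  have hn : 3 ≤ 2 * g + 1 := by omega
  have hodd : Odd (2 * g + 1) := ⟨g, rfl⟩
  have hexc := Pool.Agent.Y723.JG.exc (2 * g + 1) hn hodd
  have hExc : Pool.Agent.Y723.JG.Exc (Pool.Agent.Y723.JG.Fm (2 * g + 1))
      (fun a => (Pool.Agent.TH344.JG.SelJ a).ncard) := hexc
  have hinj : ∀ {X : ℕ} {a : Fin (2 * g + 1) → ℤ},
      a ∈ Pool.Agent.Y723.JG.Fm (2 * g + 1) X → Function.Injective a := by
    intro X a ha
    unfold Pool.Agent.Y723.JG.Fm at ha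
    exact (mem_filter.1 ha).2
  refine ⟨fun X => ?_, Fam_tendsto g hg, ?_, fun A => ?_, fun m A => ?_⟩
  · refine ⟨?_, fun a ha m => ⟨(curve ha.1 m).1, (curve ha.1 m).2.1⟩⟩
    rw [Fam_eq]
    exact finite_toSet _
  · obtain ⟨Z, hZ1, hZ2⟩ := hexc
    refine ⟨Z, ?_, fun m k => ?_⟩
    · rw [Metric.tendsto_atTop]
      intro ε hε
      obtain ⟨H0, hH0⟩ := hZ1 (ε / 2) (by positivity)
      refine ⟨H0, fun H hH => ?_⟩
      have h1 := hH0 H hH
      have h2 : (Fam g H ∩ Z).ncard =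
          ((Pool.Agent.Y723.JG.Fm (2 * g + 1) H).filter (fun c => c ∈ Z)).card := by
        rw [← Set.ncard_coe_finset, Fam_eq]
        congr 1
        ext c
        simp
      unfold proportion
      rw [h2, Fam_ncard, Real.dist_eq, sub_zero, abs_of_nonneg (by positivity)]
      rcases Nat.eq_zero_or_pos (Pool.Agent.Y723.JG.Fm (2 * g + 1) H).card with h0 | h0
      · rw [h0, Nat.cast_zero, div_zero]
        exact hε
      · rw [div_lt_iff₀ (by exact_mod_cast h0)]
        have h3 : (0 : ℝ) < (Pool.Agent.Y723.JG.Fm (2 * g + 1) H).card := by exact_mod_cast h0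
        have h4 : ε / 2 * ((Pool.Agent.Y723.JG.Fm (2 * g + 1) H).card : ℝ) <
            ε * (Pool.Agent.Y723.JG.Fm (2 * g + 1) H).card :=
          mul_lt_mul_of_pos_right (by linarith) h3
        exact lt_of_le_of_lt h1 h4
    · obtain ⟨C, hC⟩ := hZ2 (m * k)
      refine ⟨C, fun H => ?_⟩
      have h1 : Fam g H \ Z =
          (((Pool.Agent.Y723.JG.Fm (2 * g + 1) H).filter (fun c => c ∉ Z) :
            Finset (Fin (2 * g + 1) → ℤ)) : Set (Fin (2 * g + 1) → ℤ)) := by
        rw [Fam_eq]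
        ext c
        simp
      rw [h1, finsum_mem_coe_finset, Fam_ncard]
      have h2 := hC H
      refine le_trans ?_ h2
      refine le_trans (sum_le_sum (g := fun a : Fin (2 * g + 1) → ℤ =>
        ((Pool.Agent.TH344.JG.SelJ a).ncard : ℝ) ^ (m * k)) fun c hc => ?_) (le_of_eq ?_)
      · rw [mem_filter] at hc
        have h4 := (curve (hinj hc.1) m).2.2.1
        rw [pow_mul]
        exact pow_le_pow_left₀ (Nat.cast_nonneg _) (by exact_mod_cast h4) k
      · refine sum_congr ?_ fun c _ => rfl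
        congr
  · simp only [upperDensity_eq]
    apply Pool.Agent.Y723.JG.tail hExc 1
    intro r H c hc hr
    rw [pow_one]
    exact le_trans hr (curve (hinj hc) 0).2.2.2
  · simp only [upperDensity_eq]
    apply Pool.Agent.Y723.JG.tail hExc m
    intro r H c hc hr
    exact le_trans hr (curve (hinj hc) m).2.2.1

end Pool.Agent.Results.MP_a43263_nt.JacobianTails
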