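import Mathlib
import Pool.Agent.Y723.SJ.Def
import Pool.Agent.Y723.SJ.Cmp
import Pool.Agent.Y723.JG.Main
import Pool.Agent.Y723.PJ.Prm
import Pool.Agent.TH344.SG.Cor

/-!
# Tate-Shafarevich groups in one-parameter families of Jacobians

Let `g ≥ 1` and let `u_0, ..., u_(2 g)` be polynomials with integer coefficients such that the product
of the differences `u_i - u_j`, `i < j`, is squarefree over `ℚ`. For an integer `t` with distinct
values `u_i(t)` let `J_t` be the Jacobian of `y² = ∏ (x - u_i(t))`. We bound the `k`-th moment of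
`(#(J_t(ℚ) / 2 ^ m) * #Ш(J_t)[2 ^ m]) ^ (1 / m)`, uniformly in `m`, and of `2 ^ (rank + corank)`, over
all the integers of short intervals, without an exceptional set, if the numbers of the irreducible
factors of the differences are balanced. If these numbers are equal the condition is `2 ^ k ≤ 2 g`.
The same is true for the arguments `t` where given polynomials take prime values.
-/

namespace Pool.Agent.Results.MP_a43263_nt.PencilMoments

open Finset Polynomial UniqueFactorizationMonoid Pool.Agent.Y723.SJ Pool.Agent.TH344.SG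

variable {g : ℕ}

/-- the tuple of the values -/
def val (u : Fin (2 * g + 1) → ℤ[X]) (t : ℤ) (i : Fin (2 * g + 1)) : ℤ := (u i).eval t

/-- the number of the elements of `Ш(J)` killed by `n`, `J` the Jacobian of `y² = ∏ (x - a i)` -/
noncomputable def sha (n : ℕ) (a : Fin (2 * g + 1) → ℤ) : ℕ := Nat.card (ShaTorsion a n)

/-- the number of the elements of `J(ℚ) / n J(ℚ)` -/
noncomputable def quo (n : ℕ) (a : Fin (2 * g + 1) → ℤ) : ℕ := Nat.card (QuotQ a n)

/-- The corank of the 2-primary part of `Ш(J)`: the largest `t` such that `(ℤ / 2 ^ n) ^ t` embeds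
in `Ш(J)` for all `n`. -/
noncomputable def corank (a : Fin (2 * g + 1) → ℤ) : ℕ := corank2 (Sha a)

/-- the pairs `(i, j)` with `i < j` -/
def Pairs (g : ℕ) : Finset (Fin (2 * g + 1) × Fin (2 * g + 1)) := univ.filter (fun c => c.1 < c.2)

/-- the two pairs are different and have a common index -/
def Meet (c d : Fin (2 * g + 1) × Fin (2 * g + 1)) : Prop :=
  c ≠ d ∧ (c.1 = d.1 ∨ c.1 = d.2 ∨ c.2 = d.1 ∨ c.2 = d.2)

/-- the difference `u_i - u_j`, `c = (i, j)`, as a polynomial with rational coefficients -/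
noncomputable def diff (u : Fin (2 * g + 1) → ℤ[X]) (c : Fin (2 * g + 1) × Fin (2 * g + 1)) : ℚ[X] :=
  (u c.1 - u c.2).map (Int.castRingHom ℚ)

/-- the number of the irreducible factors of the difference -/
noncomputable def nf (u : Fin (2 * g + 1) → ℤ[X]) (c : Fin (2 * g + 1) × Fin (2 * g + 1)) : ℕ :=
  Multiset.card (normalizedFactors (diff u c))

open Classical in
/-- for every set `S` of pairwise disjoint pairs, `n` times the sum of the numbers of the irreducible
factors over `S` is at most the sum over the pairs that have exactly one index in common with a pair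
of `S` -/
def Balanced (u : Fin (2 * g + 1) → ℤ[X]) (n : ℕ) : Prop :=
  ∀ S ⊆ Pairs g, (∀ c ∈ S, ∀ d ∈ S, ¬ Meet c d) →
    n * ∑ c ∈ S, nf u c ≤ ∑ d ∈ (Pairs g).filter (fun d => ∃ c ∈ S, Meet c d), nf u d

open Classical in
/-- the integers `t`, `N < t ≤ N + M`, such that the values `u_i(t)` are distinct and all the
`|G_i(t)|` are prime numbers -/
noncomputable def Args (u : Fin (2 * g + 1) → ℤ[X]) {r : ℕ} (G : Fin r → ℤ[X]) (N : ℤ) (M : ℕ) :
    Finset ℤ :=
  (Ioc N (N + M)).filter (fun t => Function.Injective (val u t) ∧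
    ∀ i, ((G i).eval t).natAbs.Prime)

/-! ### Proofs -/

open Pool.Agent.TH344.JG (PR adj SelJ)
open Pool.Agent.Y723.PJ (BalS)

lemma meet_iff (c d : PR (2 * g + 1)) : Meet c.1 d.1 ↔ adj c d = true := by
  rw [Pool.Agent.Y723.JG.AdjAux.adj_iff]
  unfold Meet
  rw [Ne, Ne, Subtype.ext_iff]

lemma mem_Pairs (c : Fin (2 * g + 1) × Fin (2 * g + 1)) : c ∈ Pairs g ↔ c.1 < c.2 := by
  unfold Pairs
  rw [mem_filter]
  exact ⟨fun h => h.2, fun h => ⟨mem_univ _, h⟩⟩

lemma bal_iff (u : Fin (2 * g + 1) → ℤ[X]) (n : ℕ) :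
    Balanced u n ↔ BalS (adj (n := 2 * g + 1)) (fun c => nf u c.1) n := by
  classical
  have hsum : ∀ (P : Fin (2 * g + 1) × Fin (2 * g + 1) → Prop) [DecidablePred P],
      ∑ d ∈ (Pairs g).filter P, nf u d =
        ∑ d ∈ (univ : Finset (PR (2 * g + 1))).filter (fun d => P d.1), nf u d.1 := by
    intro P _
    symm
    refine sum_bij (fun d _ => d.1) ?_ ?_ ?_ (fun _ _ => rfl)
    · intro d hd
      rw [mem_filter] at hd ⊢
      exact ⟨(mem_Pairs _).2 d.2, hd.2⟩
    · intro d _ d' _ h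
      exact Subtype.ext h
    · intro c hc
      rw [mem_filter, mem_Pairs] at hc
      exact ⟨⟨c, hc.1⟩, mem_filter.2 ⟨mem_univ _, hc.2⟩, rfl⟩
  constructor
  · intro h S hS
    have h1 := h (S.image Subtype.val) (by
      intro c hc
      obtain ⟨d, _, rfl⟩ := mem_image.1 hc
      exact (mem_Pairs _).2 d.2) (by
      intro c hc d hd
      obtain ⟨c', hc', rfl⟩ := mem_image.1 hc
      obtain ⟨d', hd', rfl⟩ := mem_image.1 hd
      rw [meet_iff, hS c' hc' d' hd']
      simp)
    rw [hsum, sum_image (fun a _ b _ h => Subtype.ext h)] at h1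
    refine h1.trans (le_of_eq ?_)
    refine sum_congr ?_ fun _ _ => rfl
    ext d
    rw [mem_filter, mem_filter]
    refine and_congr_right fun _ => ?_
    constructor
    · rintro ⟨c, hc, hm⟩
      obtain ⟨c', hc', rfl⟩ := mem_image.1 hc
      exact ⟨c', hc', (meet_iff _ _).1 hm⟩
    · rintro ⟨c, hc, hm⟩
      exact ⟨c.1, mem_image_of_mem _ hc, (meet_iff _ _).2 hm⟩
  · intro h S hS hS2
    obtain ⟨T, hmem⟩ : ∃ T : Finset (PR (2 * g + 1)), ∀ c, c ∈ T ↔ c.1 ∈ S :=
      ⟨univ.filter (fun c => c.1 ∈ S), fun c => by simp⟩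
    have h1 := h T (by
      intro c hc d hd
      rw [hmem] at hc hd
      have h2 := hS2 _ hc _ hd
      rw [meet_iff] at h2
      simpa using h2)
    have h2 : ∑ c ∈ T, nf u c.1 = ∑ c ∈ S, nf u c := by
      refine sum_bij (fun d _ => d.1) ?_ ?_ ?_ (fun _ _ => rfl)
      · intro d hd
        exact (hmem d).1 hd
      · intro d _ d' _ h
        exact Subtype.ext h
      · intro c hc
        exact ⟨⟨c, (mem_Pairs _).1 (hS hc)⟩, (hmem _).2 hc, rfl⟩
    rw [hsum, ← h2]
    refine h1.trans (le_of_eq ?_)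
    refine sum_congr ?_ fun _ _ => rfl
    ext d
    rw [mem_filter, mem_filter]
    refine and_congr_right fun _ => ?_
    constructor
    · rintro ⟨c, hc, hm⟩
      exact ⟨c.1, (hmem _).1 hc, (meet_iff _ _).2 hm⟩
    · rintro ⟨c, hc, hm⟩
      exact ⟨⟨c, (mem_Pairs _).1 (hS hc)⟩, (hmem _).2 hc, (meet_iff _ _).1 hm⟩

/-- one curve -/
lemma curve {a : Fin (2 * g + 1) → ℤ} (ha : Function.Injective a) (m : ℕ) :
    Finite (ShaTorsion a (2 ^ m)) ∧ Finite (QuotQ a (2 ^ m)) ∧
      quo (2 ^ m) a * sha (2 ^ m) a ≤ (SelJ a).ncard ^ m ∧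
      quo 2 a * 2 ^ corank a ≤ (SelJ a).ncard := by
  have hfin := Pool.Agent.Y723.JG.selJ_fin ⟨g, rfl⟩ ha
  obtain ⟨h1, h2, h3⟩ := sha_sel_pow ha hfin m
  exact ⟨h1, h2, h3, cor_le ha hfin⟩

/-- the bound for the Selmer groups -/
theorem sel_bound {k : ℕ} (hg : 1 ≤ g) (hk : 1 ≤ k) (u : Fin (2 * g + 1) → ℤ[X])
    (hbal : Balanced u (2 ^ k)) {r : ℕ} (G : Fin r → ℤ[X])
    (hG : ∀ i, Irreducible (G i) ∧ 0 < (G i).natDegree)
    (hsq : Squarefree ((∏ c ∈ Pairs g, diff u c) * ∏ i, (G i).map (Int.castRingHom ℚ))) (L : ℕ) :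
    ∃ C : ℝ, ∀ (N : ℤ) (M : ℕ), 2 ≤ M → |N| ≤ (M : ℤ) ^ L →
      ∑ t ∈ Args u G N M, ((SelJ (val u t)).ncard : ℝ) ^ k ≤ C * (M / (Real.log M) ^ r) := by
  classical
  have hprod : ∏ c ∈ Pairs g, diff u c =
      ∏ c : PR (2 * g + 1), Pool.Agent.TH841.PT.mQ (u c.1.1 - u c.1.2) :=
    prod_subtype (Pairs g) mem_Pairs (diff u)
  rw [hprod] at hsq
  obtain ⟨J, hJ1, hJ2, κ, cls, f, hP, hcard⟩ := Pool.Agent.Y723.PJ.exists_Pn u
    (hsq.squarefree_of_dvd (Dvd.intro _ rfl))
  have hbal' : BalS (adj (n := 2 * g + 1)) (fun c => (univ.filter (fun j => cls j = c)).card)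
      (2 ^ k) := by
    have h1 := (bal_iff u (2 ^ k)).1 hbal
    have h2 : (fun c : PR (2 * g + 1) => (univ.filter (fun j => cls j = c)).card) =
        fun c => nf u c.1 := funext fun c => hcard c
    rw [h2]
    exact h1
  have hdeg : ∀ {p : ℤ[X]}, 0 < p.natDegree →
      ¬ IsUnit (Pool.Agent.TH841.PT.mQ p) := by
    intro p hp hu
    have h6 := Polynomial.natDegree_eq_zero_of_isUnit hu
    unfold Pool.Agent.TH841.PT.mQ at h6
    rw [Polynomial.natDegree_map_eq_of_injective (RingHom.injective_int (Int.castRingHom ℚ))] at h6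
    omega
  have hass : ∀ {p q : ℤ[X]}, Associated p q →
      Associated (Pool.Agent.TH841.PT.mQ p) (Pool.Agent.TH841.PT.mQ q) := by
    intro p q h
    exact h.map (Polynomial.mapRingHom (Int.castRingHom ℚ))
  have hfd : ∀ j, Pool.Agent.TH841.PT.mQ (f j) ∣
      ∏ c : PR (2 * g + 1), Pool.Agent.TH841.PT.mQ (u c.1.1 - u c.1.2) := by
    intro j
    have hd1 : f j ∣ u (cls j).1.1 - u (cls j).1.2 := by
      rw [hP.fac (cls j)]
      exact dvd_mul_of_dvd_right (dvd_prod_of_mem f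
        ((mem_filter (p := fun l => cls l = cls j)).2 ⟨mem_univ j, rfl⟩)) _
    exact (Polynomial.map_dvd _ hd1).trans (dvd_prod_of_mem (fun c : PR (2 * g + 1) =>
      Pool.Agent.TH841.PT.mQ (u c.1.1 - u c.1.2)) (mem_univ (cls j)))
  have hall : Pool.Agent.TH841.PT.Irr (Sum.elim f G) := by
    refine ⟨?_, ?_, ?_⟩
    · rintro (x | x)
      · exact hP.irr.irr x
      · exact (hG x).1
    · rintro (x | x)
      · exact hP.irr.deg x
      · exact (hG x).2
    · have key : ∀ x y, ¬ Associated (f x) (G y) := by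
        intro x y has
        refine hdeg (hP.irr.deg x) (hsq _ ?_)
        exact mul_dvd_mul (hfd x) ((hass has).dvd.trans
          (dvd_prod_of_mem (fun i => (G i).map (Int.castRingHom ℚ)) (mem_univ y)))
      rintro (x | x) (y | y) hne has
      · exact hP.irr.assoc x y (fun h => hne (by rw [h])) has
      · exact key x y has
      · exact key y x has.symm
      · refine hdeg (hG x).2 (hsq _ ?_)
        refine dvd_mul_of_dvd_right ?_ _
        rw [← mul_prod_erase univ _ (mem_univ x)]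
        refine mul_dvd_mul_left _ ((hass has).dvd.trans ?_)
        exact dvd_prod_of_mem (fun i => (G i).map (Int.castRingHom ℚ))
          (mem_erase.2 ⟨fun h => hne (by rw [h]), mem_univ y⟩)
  obtain ⟨C, _, hC⟩ := Pool.Agent.Y723.PJ.pen_prm (k := k) L hg hk hP hbal' hall
  refine ⟨C, fun N M hM hN => ?_⟩
  refine le_trans (sum_le_sum_of_subset_of_nonneg ?_ fun t _ _ => by positivity) (hC N M hM hN)
  intro t ht
  unfold Args at ht
  rw [mem_filter] at ht ⊢
  refine ⟨ht.1, fun j hj => ?_, ht.2.2⟩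
  have hd1 : f j ∣ u (cls j).1.1 - u (cls j).1.2 := by
    rw [hP.fac (cls j)]
    exact dvd_mul_of_dvd_right (dvd_prod_of_mem f
      ((mem_filter (p := fun l => cls l = cls j)).2 ⟨mem_univ j, rfl⟩)) _
  obtain ⟨q, hq⟩ := hd1
  have h1 := congrArg (Polynomial.eval t) hq
  rw [eval_sub, eval_mul, hj, zero_mul, sub_eq_zero] at h1
  exact (cls j).2.ne (ht.2.1 h1)

/-- **Theorem.** Let `g ≥ 1`, `k ≥ 1` and let `u_0, ..., u_(2 g)` be polynomials with integer
coefficients. If all the differences `u_i - u_j` have the same number of irreducible factors and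
`2 ^ k ≤ 2 g`, then `u` is balanced for `2 ^ k`. Let `u` be balanced for `2 ^ k`, let `G_1, ..., G_r`
be irreducible, not constant polynomials with integer coefficients (`r = 0` is possible) such that
the product of all the `u_i - u_j`, `i < j`, and all the `G_i` is squarefree over `ℚ`. Let `L` be a
natural number. Then there is a constant `C` such that for all `M ≥ 2`, `|N| ≤ M ^ L`, for the
Jacobians `J_t` of `y² = ∏ (x - u_i(t))`, `t` in `Args u G N M`, the groups `Ш(J_t)[2 ^ m]` and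
`J_t(ℚ) / 2 ^ m` are finite, the sum of the `k`-th powers of
`(#(J_t(ℚ) / 2 ^ m) * #Ш(J_t)[2 ^ m]) ^ (1 / m)` is at most `C M / (log M) ^ r` for all `m ≥ 1`, and so
is the sum of the `k`-th powers of `#(J_t(ℚ) / 2) * 2 ^ corank`. -/
theorem result (g k : ℕ) (hg : 1 ≤ g) (hk : 1 ≤ k) (u : Fin (2 * g + 1) → ℤ[X]) :
    ((∃ ν : ℕ, ∀ c ∈ Pairs g, nf u c = ν) → 2 ^ k ≤ 2 * g → Balanced u (2 ^ k)) ∧
    (Balanced u (2 ^ k) → ∀ (r : ℕ) (G : Fin r → ℤ[X]),
      (∀ i, Irreducible (G i) ∧ 0 < (G i).natDegree) →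
      Squarefree ((∏ c ∈ Pairs g, diff u c) * ∏ i, (G i).map (Int.castRingHom ℚ)) →
      ∀ L : ℕ, ∃ C : ℝ, ∀ (N : ℤ) (M : ℕ), 2 ≤ M → |N| ≤ (M : ℤ) ^ L →
        (∀ t ∈ Args u G N M, ∀ m : ℕ, Finite (ShaTorsion (val u t) (2 ^ m)) ∧
          Finite (QuotQ (val u t) (2 ^ m))) ∧
        (∀ m : ℕ, 1 ≤ m → ∑ t ∈ Args u G N M,
          ((quo (2 ^ m) (val u t) * sha (2 ^ m) (val u t) : ℕ) : ℝ) ^ ((k : ℝ) / m) ≤
            C * (M / (Real.log M) ^ r)) ∧
        ∑ t ∈ Args u G N M, ((quo 2 (val u t) * 2 ^ corank (val u t) : ℕ) : ℝ) ^ k ≤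
          C * (M / (Real.log M) ^ r)) := by
  classical
  refine ⟨?_, fun hbal r G hG hsq L => ?_⟩
  · rintro ⟨ν, hν⟩ hk2
    rw [bal_iff]
    have h1 : (fun c : PR (2 * g + 1) => nf u c.1) = fun _ => ν :=
      funext fun c => hν c.1 ((mem_Pairs _).2 c.2)
    rw [h1]
    exact Pool.Agent.Y723.PJ.bal_unif g k ν hk2
  · obtain ⟨C, hC⟩ := sel_bound hg hk u hbal G hG hsq L
    refine ⟨C, fun N M hM hN => ?_⟩
    have hinj : ∀ t ∈ Args u G N M, Function.Injective (val u t) := by
      intro t ht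
      unfold Args at ht
      exact (mem_filter.1 ht).2.1
    refine ⟨fun t ht m => ⟨(curve (hinj t ht) m).1, (curve (hinj t ht) m).2.1⟩, fun m hm => ?_, ?_⟩
    · refine le_trans (sum_le_sum fun t ht => ?_) (hC N M hM hN)
      have h1 : ((quo (2 ^ m) (val u t) * sha (2 ^ m) (val u t) : ℕ) : ℝ) ≤
          ((SelJ (val u t)).ncard : ℝ) ^ m := by
        exact_mod_cast (curve (hinj t ht) m).2.2.1
      have h2 := Real.rpow_le_rpow (Nat.cast_nonneg _) h1
        (by positivity : (0 : ℝ) ≤ (k : ℝ) / m)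
      refine h2.trans (le_of_eq ?_)
      have hm0 : (m : ℝ) ≠ 0 := by exact_mod_cast (by omega : m ≠ 0)
      rw [← Real.rpow_natCast, ← Real.rpow_mul (Nat.cast_nonneg _), mul_div_cancel₀ _ hm0,
        Real.rpow_natCast]
    · refine le_trans (sum_le_sum fun t ht => ?_) (hC N M hM hN)
      refine pow_le_pow_left₀ (Nat.cast_nonneg _) ?_ k
      exact_mod_cast (curve (hinj t ht) 0).2.2.2

end Pool.Agent.Results.MP_a43263_nt.PencilMoments
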