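import Mathlib
import Pool.Agent.Y723.SJ.Def
import Pool.Agent.Y723.SJ.Cmp
import Pool.Agent.Y723.JG.Main
import Pool.Agent.Y723.PW.Fin
import Pool.Agent.Y723.PW.Fam
import Pool.Agent.Y723.PW.One
import Pool.Agent.Y723.PW.Tl
import Pool.Agent.TH344.SG.Cor

/-!
# All moments and the tails in one-parameter families of Jacobians

Let `g ≥ 1` and let `u_0, ..., u_(2 g)` be polynomials with integer coefficients such that the product
of the differences `u_i - u_j`, `i < j`, is squarefree over `ℚ`, and such that the numbers of the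
irreducible factors of the differences are balanced. For an integer `t` with distinct values `u_i(t)`
let `J_t` be the Jacobian of `y² = ∏ (x - u_i(t))`. There is one set `Z` of integers of density zero,
uniformly in all intervals `(N, N + M]` with `|N| ≤ M ^ L`, such that over the integers outside of `Z`
all the moments of `(#(J_t(ℚ) / 2 ^ m) * #Ш(J_t)[2 ^ m]) ^ (1 / m)` are bounded. So the proportion of
the `t` for which the sum of the rank of `J_t(ℚ)` and the corank of the 2-primary part of `Ш(J_t)` is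
at least `r` decays faster than any exponential `A ^ (-r)`.

The group of the points of `J` over an algebraically closed field, the absolute Galois group, the
cocycles and `Ш(J)` are defined in `Pool.Agent.Y723.SJ.Def`.
-/

namespace Pool.Agent.Results.MP_a43263_nt.PencilTails

open Finset Polynomial UniqueFactorizationMonoid Pool.Agent.Y723.SJ Pool.Agent.TH344.SG

variable {g : ℕ}

/-- the tuple of the values -/
def val (u : Fin (2 * g + 1) → ℤ[X]) (t : ℤ) (i : Fin (2 * g + 1)) : ℤ := (u i).eval t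

/-- the number of the elements of `Ш(J)` killed by `n`, `J` the Jacobian of `y² = ∏ (x - a i)` -/
noncomputable def sha (n : ℕ) (a : Fin (2 * g + 1) → ℤ) : ℕ := Nat.card (ShaTorsion a n)

/-- the number of the elements of `J(ℚ) / n J(ℚ)` -/
noncomputable def quo (n : ℕ) (a : Fin (2 * g + 1) → ℤ) : ℕ := Nat.card (QuotQ a n)

/-- The corank of the 2-primary part of `Ш(J)`: the largest `t` such that `(ℤ / 2 ^ n) ^ t` embeds
in `Ш(J)` for all `n`. -/
noncomputable def corank (a : Fin (2 * g + 1) → ℤ) : ℕ := corank2 (Sha a)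

/-- the pairs `(i, j)` with `i < j` -/
def Pairs (g : ℕ) : Finset (Fin (2 * g + 1) × Fin (2 * g + 1)) := univ.filter (fun c => c.1 < c.2)

/-- the two pairs are different and have a common index -/
def Meet (c d : Fin (2 * g + 1) × Fin (2 * g + 1)) : Prop :=
  c ≠ d ∧ (c.1 = d.1 ∨ c.1 = d.2 ∨ c.2 = d.1 ∨ c.2 = d.2)

/-- the difference `u_i - u_j`, `c = (i, j)`, as a polynomial with rational coefficients -/
noncomputable def diff (u : Fin (2 * g + 1) → ℤ[X]) (c : Fin (2 * g + 1) × Fin (2 * g + 1)) : ℚ[X] :=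
  (u c.1 - u c.2).map (Int.castRingHom ℚ)

/-- the number of the irreducible factors of the difference -/
noncomputable def nf (u : Fin (2 * g + 1) → ℤ[X]) (c : Fin (2 * g + 1) × Fin (2 * g + 1)) : ℕ :=
  Multiset.card (normalizedFactors (diff u c))

open Classical in
/-- Some difference has an irreducible factor, and for every set `S` of pairwise disjoint pairs, one
of them with a difference that has an irreducible factor, the sum of the numbers of the irreducible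
factors over `S` is smaller than the sum over the pairs that have exactly one index in common with a
pair of `S`. -/
def Balanced (u : Fin (2 * g + 1) → ℤ[X]) : Prop :=
  (∃ c ∈ Pairs g, 0 < nf u c) ∧
  ∀ S ⊆ Pairs g, (∀ c ∈ S, ∀ d ∈ S, ¬ Meet c d) → (∃ c ∈ S, 0 < nf u c) →
    ∑ c ∈ S, nf u c < ∑ d ∈ (Pairs g).filter (fun d => ∃ c ∈ S, Meet c d), nf u d

/-- the tuple `(a_1, ..., a_(2 g), x)` -/
noncomputable def oneParameter (a : Fin (2 * g) → ℤ) (i : Fin (2 * g + 1)) : ℤ[X] :=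
  if h : (i : ℕ) < 2 * g then C (a ⟨i, h⟩) else X

/-- the integers `t` with distinct values `u_i(t)` and large groups -/
def Large (u : Fin (2 * g + 1) → ℤ[X]) (r : ℕ) : Set ℤ := {t | Function.Injective (val u t) ∧
  ((∃ m : ℕ, 1 ≤ m ∧ 2 ^ (m * r) ≤ quo (2 ^ m) (val u t) * sha (2 ^ m) (val u t)) ∨
    2 ^ r ≤ quo 2 (val u t) * 2 ^ corank (val u t))}

/-! ### Proofs -/

open Pool.Agent.TH344.JG (PR adj SelJ)
open Pool.Agent.Y723.PW (BalP nbr mem_nbr)

lemma meet_iff (c d : PR (2 * g + 1)) : Meet c.1 d.1 ↔ adj c d = true := by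
  rw [Pool.Agent.Y723.JG.AdjAux.adj_iff]
  unfold Meet
  rw [Ne, Ne, Subtype.ext_iff]

lemma mem_Pairs (c : Fin (2 * g + 1) × Fin (2 * g + 1)) : c ∈ Pairs g ↔ c.1 < c.2 := by
  unfold Pairs
  rw [mem_filter]
  exact ⟨fun h => h.2, fun h => ⟨mem_univ _, h⟩⟩

lemma sum_Pairs (F : Fin (2 * g + 1) × Fin (2 * g + 1) → ℕ)
    (P : Fin (2 * g + 1) × Fin (2 * g + 1) → Prop) [DecidablePred P] :
    ∑ d ∈ (Pairs g).filter P, F d =
      ∑ d ∈ (univ : Finset (PR (2 * g + 1))).filter (fun d => P d.1), F d.1 := by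
  symm
  refine sum_bij (fun d _ => d.1) ?_ ?_ ?_ (fun _ _ => rfl)
  · intro d hd
    rw [mem_filter] at hd ⊢
    exact ⟨(mem_Pairs _).2 d.2, hd.2⟩
  · intro d _ d' _ h
    exact Subtype.ext h
  · intro c hc
    rw [mem_filter, mem_Pairs] at hc
    exact ⟨⟨c, hc.1⟩, mem_filter.2 ⟨mem_univ _, hc.2⟩, rfl⟩

lemma balP_of (u : Fin (2 * g + 1) → ℤ[X]) (h : Balanced u) : BalP (fun c => nf u c.1) := by
  classical
  intro S hS hpos
  obtain ⟨c0, hc0, hc0p⟩ := hpos
  have h1 := h.2 (S.image Subtype.val) (by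
    intro c hc
    obtain ⟨d, _, rfl⟩ := mem_image.1 hc
    exact (mem_Pairs _).2 d.2) (by
    intro c hc d hd
    obtain ⟨c', hc', rfl⟩ := mem_image.1 hc
    obtain ⟨d', hd', rfl⟩ := mem_image.1 hd
    rw [meet_iff, hS c' hc' d' hd']
    simp) ⟨c0.1, mem_image_of_mem _ hc0, hc0p⟩
  rw [sum_Pairs, sum_image (fun a _ b _ h => Subtype.ext h)] at h1
  refine lt_of_lt_of_eq h1 ?_
  refine sum_congr ?_ fun _ _ => rfl
  ext d
  rw [mem_filter, mem_nbr]
  constructor
  · rintro ⟨-, c, hc, hm⟩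
    obtain ⟨c', hc', rfl⟩ := mem_image.1 hc
    exact ⟨c', hc', (meet_iff _ _).1 hm⟩
  · rintro ⟨c, hc, hm⟩
    exact ⟨mem_univ _, c.1, mem_image_of_mem _ hc, (meet_iff _ _).2 hm⟩

lemma balanced_of (u : Fin (2 * g + 1) → ℤ[X]) (h0 : ∃ c ∈ Pairs g, 0 < nf u c)
    (h : BalP (fun c : PR (2 * g + 1) => nf u c.1)) : Balanced u := by
  classical
  refine ⟨h0, fun S hS hS2 hpos => ?_⟩
  obtain ⟨T, hmem⟩ : ∃ T : Finset (PR (2 * g + 1)), ∀ c, c ∈ T ↔ c.1 ∈ S :=
    ⟨univ.filter (fun c => c.1 ∈ S), fun c => by simp⟩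
  have h1 := h T (by
    intro c hc d hd
    rw [hmem] at hc hd
    have h2 := hS2 _ hc _ hd
    rw [meet_iff] at h2
    simpa using h2) (by
    obtain ⟨c, hc, hcp⟩ := hpos
    exact ⟨⟨c, (mem_Pairs _).1 (hS hc)⟩, (hmem _).2 hc, hcp⟩)
  have h2 : ∑ c ∈ T, nf u c.1 = ∑ c ∈ S, nf u c := by
    refine sum_bij (fun d _ => d.1) ?_ ?_ ?_ (fun _ _ => rfl)
    · intro d hd
      exact (hmem d).1 hd
    · intro d _ d' _ h
      exact Subtype.ext h
    · intro c hc
      exact ⟨⟨c, (mem_Pairs _).1 (hS hc)⟩, (hmem _).2 hc, rfl⟩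
  rw [sum_Pairs, ← h2]
  refine lt_of_lt_of_eq h1 ?_
  refine sum_congr ?_ fun _ _ => rfl
  ext d
  rw [mem_filter, mem_nbr]
  constructor
  · rintro ⟨c, hc, hm⟩
    exact ⟨mem_univ _, c.1, (hmem _).1 hc, (meet_iff _ _).2 hm⟩
  · rintro ⟨-, c, hc, hm⟩
    exact ⟨⟨c, (mem_Pairs _).1 (hS hc)⟩, (hmem _).2 hc, (meet_iff _ _).1 hm⟩

/-- the pair `(0, 1)` -/
lemma pair_mem (hg : 1 ≤ g) :
    ((⟨0, by omega⟩, ⟨1, by omega⟩) : Fin (2 * g + 1) × Fin (2 * g + 1)) ∈ Pairs g := by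
  rw [mem_Pairs]
  show (0 : ℕ) < 1
  omega

lemma uniform (hg : 1 ≤ g) (u : Fin (2 * g + 1) → ℤ[X])
    (h : ∃ ν : ℕ, 0 < ν ∧ ∀ c ∈ Pairs g, nf u c = ν) : Balanced u := by
  classical
  obtain ⟨ν, hν, h⟩ := h
  refine balanced_of u ⟨_, pair_mem hg, by rw [h _ (pair_mem hg)]; exact hν⟩ ?_
  have h1 : (fun c : PR (2 * g + 1) => nf u c.1) = fun _ => ν :=
    funext fun c => h c.1 ((mem_Pairs _).2 c.2)
  rw [h1]
  intro S hS hpos
  have h2 := Pool.Agent.Y723.PJ.bal_unif g 1 ν (by omega) S hS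
  beta_reduce at h2 ⊢
  have h3 : 0 < ∑ _c ∈ S, ν := by
    obtain ⟨c, hc, _⟩ := hpos
    exact sum_pos (fun _ _ => hν) ⟨c, hc⟩
  have h4 : 2 ^ 1 * ∑ _c ∈ S, ν ≤ ∑ _c ∈ nbr adj S, ν := by
    refine h2.trans (le_of_eq ?_)
    refine sum_congr ?_ fun _ _ => rfl
    ext d
    simp only [mem_filter, mem_univ, true_and, mem_nbr]
  omega

lemma oneParameter_bal (hg : 2 ≤ g) (a : Fin (2 * g) → ℤ) (ha : Function.Injective a) :
    Squarefree (∏ c ∈ Pairs g, diff (oneParameter a) c) ∧ Balanced (oneParameter a) := by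
  classical
  refine ⟨Pool.Agent.Y723.PW.oneSq ha (Pairs g) fun c hc => (mem_Pairs c).1 hc, ?_⟩
  have hnf : ∀ c : Fin (2 * g + 1) × Fin (2 * g + 1), c.1 < c.2 →
      nf (oneParameter a) c = if (c.2 : ℕ) = 2 * g then 1 else 0 :=
    fun c hc => Pool.Agent.Y723.PW.oneNf ha c hc
  refine balanced_of _ ⟨(⟨0, by omega⟩, ⟨2 * g, by omega⟩), ?_, ?_⟩ ?_
  · rw [mem_Pairs]
    show (0 : ℕ) < 2 * g
    omega
  · rw [hnf _ (by show (0 : ℕ) < 2 * g; omega)]
    simp
  · have h1 : (fun c : PR (2 * g + 1) => nf (oneParameter a) c.1) =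
        fun c => if (c.1.2 : ℕ) = 2 * g then 1 else 0 := funext fun c => hnf c.1 c.2
    rw [h1]
    rintro S hS ⟨c, hc, hcp⟩
    have hc2 : (c.1.2 : ℕ) = 2 * g := by
      by_contra hcon
      beta_reduce at hcp
      rw [if_neg hcon] at hcp
      exact absurd hcp (lt_irrefl 0)
    exact Pool.Agent.Y723.PW.oneBal hg S hS hc hc2

/-- one curve -/
lemma curve {a : Fin (2 * g + 1) → ℤ} (ha : Function.Injective a) (m : ℕ) :
    Finite (ShaTorsion a (2 ^ m)) ∧ Finite (QuotQ a (2 ^ m)) ∧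
      quo (2 ^ m) a * sha (2 ^ m) a ≤ (SelJ a).ncard ^ m ∧
      quo 2 a * 2 ^ corank a ≤ (SelJ a).ncard := by
  have hfin := Pool.Agent.Y723.JG.selJ_fin ⟨g, rfl⟩ ha
  obtain ⟨h1, h2, h3⟩ := sha_sel_pow ha hfin m
  exact ⟨h1, h2, h3, cor_le ha hfin⟩

/-- the exceptional set for the Selmer groups -/
theorem sel_exc (hg : 1 ≤ g) (u : Fin (2 * g + 1) → ℤ[X])
    (hsq : Squarefree (∏ c ∈ Pairs g, diff u c)) (hbal : Balanced u) :
    ∃ Z : Set ℤ, (∀ t, t ∉ Z → Function.Injective (val u t)) ∧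
      Pool.Agent.TH344.PW.MomZ (fun t => ((SelJ (val u t)).ncard : ℝ)) Z := by
  classical
  have hprod : ∏ c ∈ Pairs g, diff u c =
      ∏ c : PR (2 * g + 1), Pool.Agent.TH841.PT.mQ (u c.1.1 - u c.1.2) :=
    prod_subtype (Pairs g) mem_Pairs (diff u)
  rw [hprod] at hsq
  obtain ⟨J, hJ1, hJ2, κ, cls, f, hP, hcard⟩ := Pool.Agent.Y723.PJ.exists_Pn u hsq
  have hν : (fun c : PR (2 * g + 1) => (univ.filter (fun j => cls j = c)).card) =
      fun c => nf u c.1 := funext fun c => hcard c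
  have hbal' : BalP (fun c => (univ.filter (fun j => cls j = c)).card) := by
    rw [hν]
    exact balP_of u hbal
  have hJ : Nonempty J := by
    obtain ⟨c, hc, hcp⟩ := hbal.1
    have h1 := congrFun hν ⟨c, (mem_Pairs _).1 hc⟩
    beta_reduce at h1
    rw [← h1, card_pos] at hcp
    exact ⟨hcp.choose⟩
  obtain ⟨Z, hZ1, hZ2⟩ := Pool.Agent.Y723.PW.penf hg hP
    (Pool.Agent.Y723.PW.balJ_of hg hP hbal')
  refine ⟨Z, fun t ht => ?_, hZ2⟩
  intro i l hil
  by_contra hne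
  have key : ∀ c : PR (2 * g + 1), (u c.1.1).eval t ≠ (u c.1.2).eval t := by
    intro c hc
    have h1 := congrArg (Polynomial.eval t) (hP.fac c)
    rw [eval_sub, hc, sub_self, eval_mul, eval_C, eval_prod] at h1
    rcases mul_eq_zero.1 h1.symm with h2 | h2
    · exact hP.ne c h2
    · obtain ⟨j, _, hj⟩ := prod_eq_zero_iff.1 h2
      exact hZ1 t ht j hj
  rcases lt_or_gt_of_ne hne with h | h
  · exact key ⟨(i, l), h⟩ hil
  · exact key ⟨(l, i), h⟩ hil.symm

open Classical in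
/-- **Theorem.** Let `g ≥ 1` and let `u_0, ..., u_(2 g)` be polynomials with integer coefficients. If
all the differences `u_i - u_j` have the same number `ν ≥ 1` of irreducible factors, then `u` is
balanced. If `g ≥ 2` and `a_1, ..., a_(2 g)` are distinct integers, then `(a_1, ..., a_(2 g), x)` is
balanced and the product of its differences is squarefree. Let `u` be balanced and let the product of
the `u_i - u_j`, `i < j`, be squarefree over `ℚ`; `J_t` is the Jacobian of `y² = ∏ (x - u_i(t))`. There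
is a set `Z` of integers such that
* for all `t` outside of `Z` the values `u_i(t)` are distinct, and the groups `Ш(J_t)[2 ^ m]` and
  `J_t(ℚ) / 2 ^ m` are finite;
* for all `L` and all `ε > 0` the interval `(N, N + M]` contains at most `ε M` elements of `Z` if `M` is
  large and `|N| ≤ M ^ L`;
* for all `k` and `L` there is `C` such that for all `M ≥ 1` and `|N| ≤ M ^ L` the sum of the `k`-th
  powers of `(#(J_t(ℚ) / 2 ^ m) * #Ш(J_t)[2 ^ m]) ^ (1 / m)` over the `t` in `(N, N + M]` outside of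
  `Z` is at most `C M` for all `m ≥ 1`, and so is the sum of the `k`-th powers of
  `#(J_t(ℚ) / 2) * 2 ^ corank`;
* for all `A`, `L` and `ε > 0` and all large `r` the number of the elements of `Large u r` in
  `(N, N + M]` is at most `ε M / A ^ r` if `M` is large and `|N| ≤ M ^ L`. -/
theorem result (g : ℕ) (hg : 1 ≤ g) (u : Fin (2 * g + 1) → ℤ[X]) :
    ((∃ ν : ℕ, 0 < ν ∧ ∀ c ∈ Pairs g, nf u c = ν) → Balanced u) ∧
    (2 ≤ g → ∀ a : Fin (2 * g) → ℤ, Function.Injective a →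
      Squarefree (∏ c ∈ Pairs g, diff (oneParameter a) c) ∧ Balanced (oneParameter a)) ∧
    (Squarefree (∏ c ∈ Pairs g, diff u c) → Balanced u → ∃ Z : Set ℤ,
      (∀ t, t ∉ Z → Function.Injective (val u t) ∧
        ∀ m : ℕ, Finite (ShaTorsion (val u t) (2 ^ m)) ∧ Finite (QuotQ (val u t) (2 ^ m))) ∧
      (∀ (L : ℕ) (ε : ℝ), 0 < ε → ∃ M0 : ℕ, ∀ (N : ℤ) (M : ℕ), M0 ≤ M → |N| ≤ (M : ℤ) ^ L →
        (((Ioc N (N + M)).filter (fun t => t ∈ Z)).card : ℝ) ≤ ε * M) ∧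
      (∀ k L : ℕ, ∃ C : ℝ, ∀ (N : ℤ) (M : ℕ), 1 ≤ M → |N| ≤ (M : ℤ) ^ L →
        (∀ m : ℕ, 1 ≤ m → ∑ t ∈ (Ioc N (N + M)).filter (fun t => t ∉ Z),
          ((quo (2 ^ m) (val u t) * sha (2 ^ m) (val u t) : ℕ) : ℝ) ^ ((k : ℝ) / m) ≤ C * M) ∧
        ∑ t ∈ (Ioc N (N + M)).filter (fun t => t ∉ Z),
          ((quo 2 (val u t) * 2 ^ corank (val u t) : ℕ) : ℝ) ^ k ≤ C * M) ∧
      ∀ (A : ℝ) (L : ℕ) (ε : ℝ), 0 < ε → ∃ r0 : ℕ, ∀ r, r0 ≤ r → ∃ M0 : ℕ, ∀ (N : ℤ) (M : ℕ),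
        M0 ≤ M → |N| ≤ (M : ℤ) ^ L →
          A ^ r * (((Ioc N (N + M)).filter (fun t => t ∈ Large u r)).card : ℝ) ≤ ε * M) := by
  refine ⟨uniform hg u, fun hg2 a ha => oneParameter_bal hg2 a ha, fun hsq hbal => ?_⟩
  obtain ⟨Z, hZ1, hZ2⟩ := sel_exc hg u hsq hbal
  have hR0 : ∀ t, (0 : ℝ) ≤ ((SelJ (val u t)).ncard : ℝ) := fun t => Nat.cast_nonneg _
  refine ⟨Z, fun t ht => ⟨hZ1 t ht, fun m => ⟨(curve (hZ1 t ht) m).1, (curve (hZ1 t ht) m).2.1⟩⟩,
    fun L ε hε => ?_, fun k L => ?_, fun A L ε hε => ?_⟩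
  · obtain ⟨M0, h⟩ := Pool.Agent.Y723.PW.rareZ hZ2 L hε
    exact ⟨M0, h⟩
  · obtain ⟨C, hC⟩ := Pool.Agent.Y723.PW.momZ hZ2 k L
    refine ⟨C, fun N M hM hN => ⟨fun m hm => ?_, ?_⟩⟩
    · refine le_trans (sum_le_sum fun t ht => ?_) (hC N M hM hN)
      have hinj := hZ1 t (mem_filter.1 ht).2
      have h1 : ((quo (2 ^ m) (val u t) * sha (2 ^ m) (val u t) : ℕ) : ℝ) ≤
          ((SelJ (val u t)).ncard : ℝ) ^ m := by
        exact_mod_cast (curve hinj m).2.2.1
      have h2 := Real.rpow_le_rpow (Nat.cast_nonneg _) h1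
        (by positivity : (0 : ℝ) ≤ (k : ℝ) / m)
      refine h2.trans (le_of_eq ?_)
      have hm0 : (m : ℝ) ≠ 0 := by exact_mod_cast (by omega : m ≠ 0)
      rw [← Real.rpow_natCast, ← Real.rpow_mul (Nat.cast_nonneg _), mul_div_cancel₀ _ hm0,
        Real.rpow_natCast]
    · refine le_trans (sum_le_sum fun t ht => ?_) (hC N M hM hN)
      have hinj := hZ1 t (mem_filter.1 ht).2
      refine pow_le_pow_left₀ (Nat.cast_nonneg _) ?_ k
      exact_mod_cast (curve hinj 0).2.2.2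
  · obtain ⟨r0, h⟩ := Pool.Agent.Y723.PW.tailZ hR0 hZ2 A L hε
    refine ⟨r0, fun r hr => ?_⟩
    obtain ⟨M0, hM0⟩ := h r hr
    refine ⟨M0, fun N M hM hN => hM0 N M hM hN (Large u r) fun t ht => ?_⟩
    obtain ⟨hinj, ⟨m, hm, h1⟩ | h1⟩ := ht
    · have h2 := h1.trans (curve hinj m).2.2.1
      rw [mul_comm m r, pow_mul] at h2
      have h3 := (Nat.pow_le_pow_iff_left (by omega)).1 h2
      exact_mod_cast h3
    · have h2 := h1.trans (curve hinj 0).2.2.2
      exact_mod_cast h2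

end Pool.Agent.Results.MP_a43263_nt.PencilTails
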