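import Pool.Agent.Y712.AVc

/-!
# Tate–Shafarevich groups of the quadratic twists of abelian varieties

Let `A_t` (`t ∈ ℤ`) be any abelian varieties over `ℚ` of dimension `n / 2`, with good reduction
outside the primes dividing a fixed number `N₀`, all of whose points of order two are rational, and
let `D` be a nonzero polynomial with integral coefficients.  All the moments of

  `(#(A_t^(D(t))(ℚ) / 2 ^ m) * #Ш(A_t^(D(t)))[2 ^ m]) ^ (1 / m)`

are bounded, in short intervals of `t`, uniformly in `m` and in the abelian varieties (both may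
depend on `t`).

The theorem is stated for all Galois modules with the following properties of `A(ℚ̄)`: the
stabilizers of the points are open, the group is divisible by two, it has `2 ^ n` elements killed by
two, which are rational, the points of order a power of two are unramified at the primes of good
reduction, and (Mattuck) over a finite extension of `ℚ_ℓ`, `ℓ ≠ 2`, every point is the sum of the
double of a point and of a point of order a power of two.
-/

set_option autoImplicit false

open NumberField Polynomial

namespace Pool.Agent.Results.MP_a43263_nt.TwistsOfAbelianVarieties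

/-- The absolute Galois group of a field. -/
abbrev AbsoluteGaloisGroup (F : Type) [Field F] : Type := Gal(AlgebraicClosure F/F)

/-- The absolute Galois group of `ℚ`. -/
abbrev GQ : Type := AbsoluteGaloisGroup ℚ

/-- `σ` lies in the decomposition group of the ideal `P` of the ring of all algebraic integers. -/
def InDecomposition (P : Ideal (𝓞 (AlgebraicClosure ℚ))) (σ : GQ) : Prop :=
  ∀ x : 𝓞 (AlgebraicClosure ℚ), σ • x ∈ P ↔ x ∈ P

/-- `σ` lies in the inertia group of the ideal `P` of the ring of all algebraic integers. -/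
def InInertia (P : Ideal (𝓞 (AlgebraicClosure ℚ))) (σ : GQ) : Prop :=
  ∀ x : 𝓞 (AlgebraicClosure ℚ), σ • x - x ∈ P

/-- `σ` is the complex conjugation that belongs to the embedding `ι`. -/
def IsConjugation (ι : AlgebraicClosure ℚ →+* ℂ) (σ : GQ) : Prop :=
  ∀ x, ι (σ x) = (starRingEnd ℂ) (ι x)

/-- The properties of the Galois module `A(ℚ̄)`, for an abelian variety `A` of dimension `n / 2` over
`ℚ`, all of whose points of order two are rational, and which has good reduction at the primes that
do not divide `2 N₀`. -/
structure LikeAbelianVariety (n N₀ : ℕ) (A : Type) [AddCommGroup A] [DistribMulAction GQ A] :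
    Prop where
  /-- every point is defined over a number field -/
  smooth : ∀ a : A, IsOpen {σ : GQ | σ • a = a}
  /-- every point is the double of a point -/
  divisible : ∀ a : A, ∃ b : A, 2 • b = a
  /-- there are `2 ^ n` points killed by two -/
  torsion : Nat.card {a : A // 2 • a = 0} = 2 ^ n
  /-- the points killed by two are rational -/
  rational : ∀ a : A, 2 • a = 0 → ∀ σ : GQ, σ • a = a
  /-- the points killed by a power of two are unramified at the primes not dividing `2 N₀` -/
  unramified : ∀ P : Ideal (𝓞 (AlgebraicClosure ℚ)), P.IsMaximal →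
    ((2 * N₀ : ℕ) : 𝓞 (AlgebraicClosure ℚ)) ∉ P → ∀ σ : GQ, InInertia P σ →
      ∀ (a : A) (k : ℕ), 2 ^ k • a = 0 → σ • a = a
  /-- over the finite extensions of `ℚ_ℓ`, for `ℓ ≠ 2` (these correspond to the groups `H ∩ D_P`),
  every point is the sum of the double of a point and of a point of order a power of two -/
  mattuck : ∀ P : Ideal (𝓞 (AlgebraicClosure ℚ)), P.IsMaximal →
    (2 : 𝓞 (AlgebraicClosure ℚ)) ∉ P → ∀ H : Subgroup GQ, IsOpen (H : Set GQ) →
      ∀ a : A, (∀ σ ∈ H, InDecomposition P σ → σ • a = a) →
        ∃ b c : A, (∀ σ ∈ H, InDecomposition P σ → σ • b = b ∧ σ • c = c) ∧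
          (∃ k : ℕ, 2 ^ k • c = 0) ∧ a = 2 • b + c

section twist

open Classical in
/-- The quadratic character `χ_d` of the field `ℚ(√d)`. -/
noncomputable def quadChar (d : ℤ) (σ : GQ) : ℤ :=
  if ∀ s : AlgebraicClosure ℚ, s ^ 2 = (d : AlgebraicClosure ℚ) → σ s = s then 1 else -1

/-- The twist of a Galois module by the quadratic character `χ_d`: the same group. -/
def Twist (_d : ℤ) (A : Type) : Type := A

variable {A : Type} [AddCommGroup A] [DistribMulAction GQ A]

instance (d : ℤ) : AddCommGroup (Twist d A) := inferInstanceAs (AddCommGroup A)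

/-- The twisted action `σ * a = χ_d(σ) σ(a)`. -/
noncomputable def twistedAction (d : ℤ) (σ : GQ) (a : A) : A := quadChar d σ • (σ • a)

noncomputable instance (d : ℤ) : DistribMulAction GQ (Twist d A) where
  smul σ a := @twistedAction A _ _ d σ a
  one_smul a := @Pool.Agent.Y712.ta_one A _ _ d a
  mul_smul σ τ a := @Pool.Agent.Y712.ta_mul A _ _ d σ τ a
  smul_zero σ := @Pool.Agent.Y712.ta_zero A _ _ d σ
  smul_add σ a b := @Pool.Agent.Y712.ta_add A _ _ d σ a b

end twist

section groups

variable (B : Type) [AddCommGroup B] [DistribMulAction GQ B]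

/-- The group `B(ℚ)` of the rational points. -/
def Points : AddSubgroup B where
  carrier := {b | ∀ σ : GQ, σ • b = b}
  zero_mem' := fun σ => smul_zero σ
  add_mem' := by
    intro a b ha hb σ
    rw [smul_add, ha, hb]
  neg_mem' := by
    intro a ha σ
    rw [smul_neg, ha]

/-- The quotient of an abelian group by the multiples of `k`. -/
abbrev ModMultiples (X : Type) [AddCommGroup X] (k : ℕ) : Type :=
  X ⧸ (nsmulAddMonoidHom k : X →+ X).range

variable {B}

/-- `c` is a crossed homomorphism, continuous for the discrete topology of `B`, whose restrictions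
to all the decomposition groups (of the primes and of the real place) are principal. -/
def IsLocallyTrivial (c : GQ → B) : Prop :=
  (IsLocallyConstant c ∧ ∀ σ τ, c (σ * τ) = c σ + σ • c τ) ∧
    (∀ P : Ideal (𝓞 (AlgebraicClosure ℚ)), P.IsMaximal →
      ∃ u : B, ∀ σ, InDecomposition P σ → c σ = σ • u - u) ∧
    ∀ ι : AlgebraicClosure ℚ →+* ℂ, ∃ u : B, ∀ σ : GQ, IsConjugation ι σ → c σ = σ • u - u

theorem isLocallyTrivial_iff {c : GQ → B} :
    IsLocallyTrivial c ↔ Pool.Agent.Y712.IsShaZ c := Iff.rfl

variable (B)

/-- The group of the locally trivial crossed homomorphisms. -/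
def locallyTrivial : AddSubgroup (GQ → B) where
  carrier := {c | IsLocallyTrivial c}
  zero_mem' := Pool.Agent.Y712.IsShaZ.zero
  add_mem' := Pool.Agent.Y712.IsShaZ.add
  neg_mem' := Pool.Agent.Y712.IsShaZ.neg

/-- The group of the principal crossed homomorphisms `σ ↦ σ u - u`. -/
def principal : AddSubgroup (GQ → B) where
  carrier := {c | ∃ u : B, ∀ σ, c σ = σ • u - u}
  zero_mem' := (Pool.Agent.Y712.CobZ B).zero_mem'
  add_mem' := (Pool.Agent.Y712.CobZ B).add_mem'
  neg_mem' := (Pool.Agent.Y712.CobZ B).neg_mem'

/-- The Tate–Shafarevich group `Ш(B)`. -/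
abbrev Sha : Type := locallyTrivial B ⧸ (principal B).addSubgroupOf (locallyTrivial B)

/-- The elements of `Ш(B)` killed by `2 ^ m`. -/
def ShaTorsion (m : ℕ) : Type := {x : Sha B // 2 ^ m • x = 0}

end groups

/-- The integers `t` with `N < t ≤ N + M` and `D(t) ≠ 0`. -/
noncomputable def parameters (D : ℤ[X]) (N : ℤ) (M : ℕ) : Finset ℤ :=
  (Finset.Ioc N (N + M)).filter (fun t => D.eval t ≠ 0)

theorem result (n N₀ : ℕ) (hN₀ : N₀ ≠ 0) (D : ℤ[X]) (hD : D ≠ 0) (k L : ℕ) :
    ∃ C : ℝ, ∀ (N : ℤ) (M : ℕ), 1 ≤ M → |N| ≤ (M : ℤ) ^ L →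
      ∀ (A : ℤ → Type) [∀ t, AddCommGroup (A t)] [∀ t, DistribMulAction GQ (A t)],
        (∀ t, LikeAbelianVariety n N₀ (A t)) → ∀ m : ℤ → ℕ, (∀ t, 1 ≤ m t) →
        (∀ t ∈ parameters D N M,
          Finite (ModMultiples (Points (Twist (D.eval t) (A t))) (2 ^ m t)) ∧
          Finite (ShaTorsion (Twist (D.eval t) (A t)) (m t))) ∧
        ∑ t ∈ parameters D N M,
          ((Nat.card (ModMultiples (Points (Twist (D.eval t) (A t))) (2 ^ m t)) *
            Nat.card (ShaTorsion (Twist (D.eval t) (A t)) (m t)) : ℝ) ^ ((1 : ℝ) / m t)) ^ k ≤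
            C * M := by
  obtain ⟨C, hC⟩ := Pool.Agent.Y712.mom_AV n hN₀ D hD k L
  refine ⟨C, fun N M hM hN A _ _ hA m hm => ?_⟩
  have hA' : ∀ t, Pool.Agent.Y712.AVL n N₀ (A t) := fun t =>
    { smooth := (hA t).smooth
      div := (hA t).divisible
      card := (hA t).torsion
      rat := (hA t).rational
      unr := (hA t).unramified
      loc := (hA t).mattuck }
  exact hC N M hM hN A hA' m hm

end Pool.Agent.Results.MP_a43263_nt.TwistsOfAbelianVarieties
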